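import Pool.Agent.R794.PM.SevenMain

/-!
# Unions of sets of minimal lengths need not be intervals

There is a monoid `H` of order `7` such that the union of the sets of minimal lengths of its
reduced finitary power monoid that contain `4` is `{2, 4}`.
-/

set_option autoImplicit false

namespace Pool.Agent.Results.MP_43520b_al.MinimalNotInterval

open Pool.Agent.R794.PM
open scoped Pointwise

/-- There is a monoid `H` with exactly seven elements such that `U^m_4` of the reduced finitary
power monoid of `H` is `{2, 4}`, and so it is not an interval. -/
theorem result : ∃ (H : Type) (_ : Monoid H), Nat.card H = 7 ∧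
    unionMinLengths (powerMonoid H) 4 = {2, 4} ∧
    ¬ IsInterval (unionMinLengths (powerMonoid H) 4) :=
  ⟨Seven.H7, inferInstance, Seven.card_H7, Seven.union_four, Seven.not_interval⟩

end Pool.Agent.Results.MP_43520b_al.MinimalNotInterval
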