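import Pool.Agent.R794.PM.Main

/-!
# Unions of length sets in reduced finitary power monoids

For every monoid `H` and every `k ≥ 1`, the union of all length sets of the reduced finitary power
monoid of `H` that contain `k` is an interval; moreover these unions are determined.
-/

set_option autoImplicit false

universe u

namespace Pool.Agent.Results.MP_43520b_al.UnionsIntervals

open Pool.Agent.R794.PM
open scoped Pointwise

/-- For every monoid `H`: all the sets `U_k`, `k ≥ 1`, are intervals; and either all are empty, or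
all equal `{1, 2, ...}`, or `U_1 = {1}` and `U_k = {2, 3, ...}` for all `k ≥ 2`, or `H` has exactly
five elements and `U_1 = {1}`, `U_2 = {2, 3}`, `U_3 = {2, 3, ...}`, `U_k = {3, 4, ...}` for all
`k ≥ 4`. -/
theorem result (H : Type u) [Monoid H] :
    (∀ k, 1 ≤ k → IsInterval (unionLengths (powerMonoid H) k)) ∧
    ((∀ k, 1 ≤ k → unionLengths (powerMonoid H) k = ∅) ∨
      (∀ k, 1 ≤ k → unionLengths (powerMonoid H) k = {m | 1 ≤ m}) ∨
      (unionLengths (powerMonoid H) 1 = {1} ∧
        ∀ k, 2 ≤ k → unionLengths (powerMonoid H) k = {m | 2 ≤ m}) ∨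
      (Nat.card H = 5 ∧ unionLengths (powerMonoid H) 1 = {1} ∧
        unionLengths (powerMonoid H) 2 = {m | 2 ≤ m ∧ m ≤ 3} ∧
        unionLengths (powerMonoid H) 3 = {m | 2 ≤ m} ∧
        ∀ k, 4 ≤ k → unionLengths (powerMonoid H) k = {m | 3 ≤ m})) := by
  simp only [unionLengths_eq]
  exact ⟨interval H, description H⟩

end Pool.Agent.Results.MP_43520b_al.UnionsIntervals
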